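import Pool.Agent.Q94.LC.Main

/-!
# MP_3ad82e_an: logarithmic coefficients of the class `S*_ch`

We answer Q1 positively: `|γ_n| ≤ 1 / (2 n)` for every function of the class and every `n ≥ 1`.
-/

set_option autoImplicit false

namespace Pool.Agent.Results.MP_3ad82e_an.LogCoefficients

open Metric Set Filter Topology

/-- The analytic self-maps `ω` of the open unit disc with `ω 0 = 0`. -/
structure IsSchwarz (ω : ℂ → ℂ) : Prop where
  diff : DifferentiableOn ℂ ω (ball 0 1)
  maps : ∀ z ∈ ball (0 : ℂ) 1, ω z ∈ ball (0 : ℂ) 1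
  zero : ω 0 = 0

/-- The function `φ₀(w) = w + cosh w`. -/
noncomputable def phi0 (w : ℂ) : ℂ := w + Complex.cosh w

/-- The class `S*_ch`: `f` is analytic on the open unit disc, `f 0 = 0`, `f' 0 = 1`, and
`z f'(z) / f(z) = φ₀(ω(z))` for some analytic self-map `ω` of the disc with `ω 0 = 0`.  The equation
is written without division; it forces `f z ≠ 0` for `z ≠ 0` (part of the result). -/
structure InClass (f : ℂ → ℂ) : Prop where
  diff : DifferentiableOn ℂ f (ball 0 1)
  zero : f 0 = 0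
  deriv_zero : deriv f 0 = 1
  subord : ∃ ω : ℂ → ℂ, IsSchwarz ω ∧ ∀ z ∈ ball (0 : ℂ) 1, z * deriv f z = f z * phi0 (ω z)

/-- `L` is the branch of `log (f z / z)` on the open unit disc which vanishes at `0`: it is analytic,
`L 0 = 0` and `exp (L z) = f z / z` (for `z ≠ 0`). -/
structure IsLogBranch (f L : ℂ → ℂ) : Prop where
  diff : DifferentiableOn ℂ L (ball 0 1)
  zero : L 0 = 0
  exp_eq : ∀ z ∈ ball (0 : ℂ) 1, z ≠ 0 → Complex.exp (L z) = f z / z

/-- The numbers `γ_n` of the expansion `L z = 2 ∑ γ_n z ^ n` (Taylor coefficients at `0`). -/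
noncomputable def logCoeff (L : ℂ → ℂ) (n : ℕ) : ℂ := iteratedDeriv n L 0 / (2 * n.factorial)

open Q94.LC Pool.Agent.W769.SR

lemma exp_branch {f L : ℂ → ℂ} (hf : InClass f) (hL : IsLogBranch f L) {z : ℂ}
    (hz : z ∈ ball (0 : ℂ) 1) : f z = z * Complex.exp (L z) := by
  by_cases h0 : z = 0
  · rw [h0, hf.zero, zero_mul]
  · rw [hL.exp_eq z hz h0]; field_simp

/-- `z L'(z) = φ₀(ω z) - 1` -/
lemma log_deriv {f L ω : ℂ → ℂ} (hf : InClass f) (hL : IsLogBranch f L)
    (hω : IsSchwarz ω) (h : ∀ z ∈ ball (0 : ℂ) 1, z * deriv f z = f z * phi0 (ω z)) {z : ℂ}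
    (hz : z ∈ ball (0 : ℂ) 1) : z * deriv L z = Fch (ω z) := by
  by_cases h0 : z = 0
  · rw [h0, hω.zero, zero_mul]; simp [Fch]
  · have hnhds : ball (0 : ℂ) 1 ∈ 𝓝 z := isOpen_ball.mem_nhds hz
    have hev : f =ᶠ[𝓝 z] fun w => w * Complex.exp (L w) := by
      filter_upwards [hnhds] with w hw
      exact exp_branch hf hL hw
    have hLd : HasDerivAt L (deriv L z) z := (hL.diff.differentiableAt hnhds).hasDerivAt
    have hd : HasDerivAt (fun w => w * Complex.exp (L w))
        (1 * Complex.exp (L z) + z * (Complex.exp (L z) * deriv L z)) z :=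
      (hasDerivAt_id z).fun_mul hLd.cexp
    have h1 := h z hz
    rw [hev.deriv_eq, hd.deriv, exp_branch hf hL hz] at h1
    have hne : z * Complex.exp (L z) ≠ 0 := mul_ne_zero h0 (Complex.exp_ne_zero _)
    have h2 : z * Complex.exp (L z) * (1 + z * deriv L z)
        = z * Complex.exp (L z) * phi0 (ω z) := by
      rw [← h1]; ring
    have h3 := mul_left_cancel₀ hne h2
    unfold Fch
    unfold phi0 at h3
    linear_combination h3

/-- existence of the branch -/
lemma exists_branch {f : ℂ → ℂ} (hf : InClass f) : ∃ L, IsLogBranch f L := by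
  obtain ⟨ω, hω, h⟩ := hf.subord
  have h0 : (0 : ℂ) ∈ ball (0 : ℂ) 1 := mem_ball_self one_pos
  -- the function `(φ₀(ω z) - 1) / z`
  set G : ℂ → ℂ := fun z => Fch (ω z) with hG
  have hGd : DifferentiableOn ℂ G (ball 0 1) := by
    have hF : Differentiable ℂ Fch := fun z => (Fch_analytic z).differentiableAt
    exact hF.comp_differentiableOn hω.diff
  have hG0 : G 0 = 0 := by simp [hG, Fch, hω.zero]
  have hgd : DifferentiableOn ℂ (dslope G 0) (ball 0 1) :=
    (Complex.differentiableOn_dslope (isOpen_ball.mem_nhds h0)).2 hGd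
  obtain ⟨L, hL0, hL⟩ := (hgd.isExactOn_ball).with_val_at 0 0
  have hLd : ∀ z ∈ ball (0 : ℂ) 1, HasDerivAt L (dslope G 0 z) z := fun z hz => hL z hz
  have hzg : ∀ z ∈ ball (0 : ℂ) 1, z * dslope G 0 z = G z := fun z _ => by
    have := sub_smul_dslope G 0 z
    rw [hG0, sub_zero, sub_zero, smul_eq_mul] at this
    exact this
  have hLdiff : DifferentiableOn ℂ L (ball 0 1) := fun z hz =>
    (hLd z hz).differentiableAt.differentiableWithinAt
  refine ⟨L, hLdiff, hL0, ?_⟩
  -- `k z = f z * exp (- L z)` satisfies `z k' = k`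
  set k : ℂ → ℂ := fun z => f z * Complex.exp (-L z) with hk
  have hkd : DifferentiableOn ℂ k (ball 0 1) := hf.diff.mul (hLdiff.neg.cexp)
  have hkz : ∀ z ∈ ball (0 : ℂ) 1, z * deriv k z = k z := by
    intro z hz
    have hfd : HasDerivAt f (deriv f z) z :=
      (hf.diff.differentiableAt (isOpen_ball.mem_nhds hz)).hasDerivAt
    have hd : HasDerivAt k (deriv f z * Complex.exp (-L z)
        + f z * (Complex.exp (-L z) * -(dslope G 0 z))) z :=
      hfd.fun_mul (hLd z hz).neg.cexp
    rw [hd.deriv]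
    have e1 := h z hz
    have e2 : z * dslope G 0 z = ω z + Complex.cosh (ω z) - 1 := hzg z hz
    unfold phi0 at e1
    simp only [hk]
    linear_combination Complex.exp (-L z) * e1 - f z * Complex.exp (-L z) * e2
  have hka : AnalyticAt ℂ k 0 := hkd.analyticAt (isOpen_ball.mem_nhds h0)
  have hco : ∀ n, co k n = if n = 1 then 1 else 0 := by
    intro n
    split_ifs with hn
    · subst hn
      have hd : HasDerivAt k (deriv f 0 * Complex.exp (-L 0)
          + f 0 * (Complex.exp (-L 0) * -(dslope G 0 0))) 0 :=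
        ((hf.diff.differentiableAt (isOpen_ball.mem_nhds h0)).hasDerivAt).fun_mul
          (hLd 0 h0).neg.cexp
      unfold co
      rw [iteratedDeriv_one, hd.deriv, hf.deriv_zero, hf.zero, hL0]
      simp
    · have h1 := co_mul_deriv hka n
      have h2 : co (fun z => z * deriv k z) n = co k n := by
        have hev : (fun z => z * deriv k z) =ᶠ[𝓝 0] k := by
          filter_upwards [isOpen_ball.mem_nhds h0] with z hz
          exact hkz z hz
        unfold co
        rw [hev.iteratedDeriv_eq n]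
      rw [h2] at h1
      have h3 : ((n : ℂ) - 1) * co k n = 0 := by linear_combination -h1
      rcases mul_eq_zero.1 h3 with h4 | h4
      · exact absurd (by exact_mod_cast sub_eq_zero.1 h4) hn
      · exact h4
  intro z hz hz0
  have hs := Pool.Agent.W63.SR.Pars.taylor hkd hz
  have hs2 : HasSum (fun n => co k n * z ^ n) z := by
    have := hasSum_single (f := fun n => co k n * z ^ n) 1 (fun n hn => by
      rw [hco, if_neg hn, zero_mul])
    simpa [hco] using this
  have hkz1 : k z = z := hs.unique hs2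
  simp only [hk] at hkz1
  rw [eq_div_iff hz0]
  have e3 : Complex.exp (L z) * Complex.exp (-L z) = 1 := by rw [← Complex.exp_add]; simp
  linear_combination -Complex.exp (L z) * hkz1 + f z * e3

lemma branch_coeff {f L ω : ℂ → ℂ} (hf : InClass f) (hL : IsLogBranch f L)
    (hω : IsSchwarz ω) (h : ∀ z ∈ ball (0 : ℂ) 1, z * deriv f z = f z * phi0 (ω z)) (n : ℕ) :
    n * co L n = co (fun z => Fch (ω z)) n := by
  have h0 : (0 : ℂ) ∈ ball (0 : ℂ) 1 := mem_ball_self one_pos
  have hLa : AnalyticAt ℂ L 0 := hL.diff.analyticAt (isOpen_ball.mem_nhds h0)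
  have h1 := co_mul_deriv hLa n
  have h2 : co (fun z => z * deriv L z) n = co (fun z => Fch (ω z)) n := by
    have hev : (fun z => z * deriv L z) =ᶠ[𝓝 0] fun z => Fch (ω z) := by
      filter_upwards [isOpen_ball.mem_nhds h0] with z hz
      exact log_deriv hf hL hω h hz
    unfold co
    rw [hev.iteratedDeriv_eq n]
  rw [← h1, h2]

lemma branch_unique {f L L' : ℂ → ℂ} (hf : InClass f) (hL : IsLogBranch f L)
    (hL' : IsLogBranch f L') {z : ℂ} (hz : z ∈ ball (0 : ℂ) 1) : L' z = L z := by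
  obtain ⟨ω, hω, h⟩ := hf.subord
  have h1 := Pool.Agent.W63.SR.Pars.taylor hL.diff hz
  have h2 := Pool.Agent.W63.SR.Pars.taylor hL'.diff hz
  have h3 : (fun k => co L k * z ^ k) = fun k => co L' k * z ^ k := by
    funext k
    rcases Nat.eq_zero_or_pos k with hk | hk
    · subst hk
      unfold co
      simp [hL.zero, hL'.zero]
    · have e := (branch_coeff hf hL hω h k).trans (branch_coeff hf hL' hω h k).symm
      have hk' : (k : ℂ) ≠ 0 := by exact_mod_cast hk.ne'
      rw [mul_left_cancel₀ hk' e]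
  rw [h3] at h1
  exact h2.unique h1

/-- **Theorem.** Let `f` be in the class `S*_ch`.  Then `f z ≠ 0` for `z ≠ 0`, the branch `L` of
`log (f z / z)` with `L 0 = 0` exists on the disc and is unique there, it is the sum of the series
`2 ∑ γ_n z ^ n`, and `|γ_n| ≤ 1 / (2 n)` for every `n ≥ 1`. -/
theorem result (f : ℂ → ℂ) (hf : InClass f) :
    (∀ z ∈ ball (0 : ℂ) 1, z ≠ 0 → f z ≠ 0) ∧
    (∃ L, IsLogBranch f L ∧ ∀ L', IsLogBranch f L' → ∀ z ∈ ball (0 : ℂ) 1, L' z = L z) ∧
    (∀ L, IsLogBranch f L → ∀ z ∈ ball (0 : ℂ) 1,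
      HasSum (fun n : ℕ => 2 * logCoeff L n * z ^ n) (L z)) ∧
    ∀ L, IsLogBranch f L → ∀ n : ℕ, 1 ≤ n → ‖logCoeff L n‖ ≤ 1 / (2 * n) := by
  obtain ⟨L₀, hL₀⟩ := exists_branch hf
  refine ⟨fun z hz hz0 => ?_, ⟨L₀, hL₀, fun L' hL' z hz => branch_unique hf hL₀ hL' hz⟩,
    fun L hL z hz => ?_, fun L hL n hn => ?_⟩
  · rw [exp_branch hf hL₀ hz]
    exact mul_ne_zero hz0 (Complex.exp_ne_zero _)
  · have := Pool.Agent.W63.SR.Pars.taylor hL.diff hz
    convert this using 2 with n
    unfold logCoeff co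
    have : (n.factorial : ℂ) ≠ 0 := by exact_mod_cast n.factorial_ne_zero
    field_simp
  · obtain ⟨ω, hω, h⟩ := hf.subord
    have hS : SelfMap ω := ⟨hω.diff, hω.maps, hω.zero⟩
    have hb := coeff_bound hS (n := n) (by omega)
    rw [← branch_coeff hf hL hω h n] at hb
    have h3 : (n : ℂ) * co L n = 2 * n * logCoeff L n := by
      unfold logCoeff co
      have : (n.factorial : ℂ) ≠ 0 := by exact_mod_cast n.factorial_ne_zero
      field_simp
    rw [h3, norm_mul, norm_mul, Complex.norm_natCast] at hb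
    have hn' : (0 : ℝ) < n := by exact_mod_cast (by omega : 0 < n)
    rw [le_div_iff₀ (by positivity)]
    have h4 : ‖(2 : ℂ)‖ = 2 := by norm_num
    rw [h4] at hb
    linarith

end Pool.Agent.Results.MP_3ad82e_an.LogCoefficients
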